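import Mathlib

/-!
# Lower bound for the threshold of prime powers in linear forms

`Thr k N` says that `N` has the property in the definition of `g(k)`.  Main result: `Thr k N → 8 * (k / 7) ^ k < N ^ 2`.
The proof picks a prime `A` with `8 Q < A ^ 2 < 64 Q`, `Q = (k / 7) ^ k`, and counts the `b` in `(A, 2A)` for which some
`j ^ k`, `j ≤ k / 7`, is of the form `A x + b y`: there are at most `∑ j ^ k / A < A - 1` of them.
-/

namespace Pool.Agent.H38.FT

open Finset

/-- `π_{k,a,b} > 0`: some `k`-th power of a prime is at most `ab - a - b` and of the form `ax + by`. -/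
def Represents (k a b : ℕ) : Prop :=
  ∃ p x y : ℕ, p.Prime ∧ p ^ k + a + b ≤ a * b ∧ p ^ k = a * x + b * y

/-- the property of `N` in the definition of `g(k)` -/
def Thr (k N : ℕ) : Prop :=
  0 < N ∧ ∀ a b : ℕ, N < a → a < b → a.Coprime b → Represents k a b

theorem bernoulli_pow (m j : ℕ) (hm : 1 ≤ m) : 2 ^ j * m ^ (j * m) ≤ (m + 1) ^ (j * m) := by
  have h1 : 2 * m ^ m ≤ (m + 1) ^ m := by
    have h : (1 : ℝ) + m * (1 / m : ℝ) ≤ (1 + 1 / m) ^ m := by
      apply one_add_mul_le_pow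
      have : (0 : ℝ) ≤ 1 / m := by positivity
      linarith
    have hm' : (m : ℝ) ≠ 0 := by positivity
    rw [mul_one_div_cancel hm'] at h
    have h2 : ((m : ℝ) + 1) ^ m = (1 + 1 / m) ^ m * m ^ m := by
      rw [← mul_pow]
      congr 1
      field_simp
    have h3 : (2 : ℝ) * m ^ m ≤ (m + 1) ^ m := by
      rw [h2]
      have : (0 : ℝ) ≤ (m : ℝ) ^ m := by positivity
      nlinarith
    exact_mod_cast h3
  calc 2 ^ j * m ^ (j * m) = (2 * m ^ m) ^ j := by rw [mul_pow, ← pow_mul, mul_comm m j]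
    _ ≤ ((m + 1) ^ m) ^ j := Nat.pow_le_pow_left h1 j
    _ = (m + 1) ^ (j * m) := by rw [← pow_mul, mul_comm m j]

theorem pow_succ_ge (m k j : ℕ) (hm : 1 ≤ m) (h : j * m ≤ k) : 2 ^ j * m ^ k ≤ (m + 1) ^ k := by
  obtain ⟨r, rfl⟩ := Nat.exists_eq_add_of_le h
  rw [pow_add, pow_add, ← mul_assoc]
  exact Nat.mul_le_mul (bernoulli_pow m j hm) (Nat.pow_le_pow_left (Nat.le_succ m) r)

theorem sum_pow_le (m k : ℕ) (h : m ≤ k) (hm : 1 ≤ m) : ∑ j ∈ Icc 1 m, j ^ k ≤ 2 * m ^ k := by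
  induction m with
  | zero => omega
  | succ n ih =>
    rcases Nat.eq_zero_or_pos n with rfl | hn
    · simp
    · rw [Finset.sum_Icc_succ_top (by omega)]
      have h1 := ih (by omega) hn
      have h2 := pow_succ_ge n k 1 hn (by omega)
      rw [pow_one] at h2
      omega

/-- for `y` prime to `A`, at most one `b` in `(A, 2A)` has `b y ≡ c` modulo `A` -/
theorem card_le_one {A : ℕ} (hA : A.Prime) {y : ℕ} (c : ℕ) (hy : ¬ A ∣ y) :
    ((Ioo A (2 * A)).filter (fun b => b * y ≡ c [MOD A])).card ≤ 1 := by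
  rw [Finset.card_le_one]
  intro b hb b' hb'
  simp only [Finset.mem_filter, Finset.mem_Ioo] at hb hb'
  have h1 : b * y ≡ b' * y [MOD A] := hb.2.trans hb'.2.symm
  have hco : Nat.Coprime A y := (Nat.Prime.coprime_iff_not_dvd hA).2 hy
  have h2 : b ≡ b' [MOD A] := Nat.ModEq.cancel_right_of_coprime hco h1
  have h3 : (b - A) ≡ (b' - A) [MOD A] := by
    have e1 : b = (b - A) + A := by omega
    have e2 : b' = (b' - A) + A := by omega
    rw [e1, e2] at h2
    exact Nat.ModEq.add_right_cancel' A h2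
  have h4 : b - A = b' - A := Nat.ModEq.eq_of_lt_of_lt h3 (by omega) (by omega)
  omega

theorem exists_prime (Q : ℕ) (hQ : 1 ≤ Q) : ∃ A : ℕ, A.Prime ∧ 8 * Q < A ^ 2 ∧ A ^ 2 < 64 * Q := by
  set t := Nat.sqrt (8 * Q) with ht
  have h1 : t * t ≤ 8 * Q := Nat.sqrt_le (8 * Q)
  have h2 : 8 * Q < (t + 1) * (t + 1) := Nat.lt_succ_sqrt (8 * Q)
  have ht2 : 2 ≤ t := by
    by_contra hlt
    have : t ≤ 1 := by omega
    have : (t + 1) * (t + 1) ≤ 2 * 2 := Nat.mul_le_mul (by omega) (by omega)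
    omega
  obtain ⟨A, hA, h3, h4⟩ := Nat.exists_prime_lt_and_le_two_mul (t + 1) (by omega)
  refine ⟨A, hA, ?_, ?_⟩
  · calc 8 * Q < (t + 1) * (t + 1) := h2
      _ ≤ A * A := Nat.mul_le_mul h3.le h3.le
      _ = A ^ 2 := (sq A).symm
  · have h5 : A ^ 2 ≤ (2 * (t + 1)) ^ 2 := Nat.pow_le_pow_left h4 2
    have h6 : (2 * (t + 1)) ^ 2 < 64 * Q := by
      rcases Nat.lt_or_ge t 3 with h | h
      · have : t = 2 := by omega
        rw [this]
        omega
      · nlinarith
    omega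

theorem main (k N : ℕ) (hk : 7 ≤ k) (hN : Thr k N) : 8 * (k / 7) ^ k < N ^ 2 := by
  set m := k / 7 with hm
  have hm1 : 1 ≤ m := by omega
  have hmk : 7 * m ≤ k := by omega
  set Q := m ^ k with hQdef
  have hQ1 : 1 ≤ Q := Nat.one_le_pow _ _ hm1
  obtain ⟨A, hA, hA1, hA2⟩ := exists_prime Q hQ1
  -- `m < A`
  have hmQ : m ^ 2 ≤ Q := Nat.pow_le_pow_right hm1 (by omega)
  have hmA : m < A := by
    by_contra h
    have : A ^ 2 ≤ m ^ 2 := Nat.pow_le_pow_left (by omega) 2
    omega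
  -- the bad `b`
  set bad := (Icc 1 m).biUnion (fun j => (Icc 1 (j ^ k / A)).biUnion
    (fun y => (Ioo A (2 * A)).filter (fun b => b * y ≡ j ^ k [MOD A]))) with hbad
  have hsmall : ∀ j ∈ Icc 1 m, j ^ k / A < A := by
    intro j hj
    rw [Finset.mem_Icc] at hj
    have h1 : j ^ k ≤ Q := Nat.pow_le_pow_left hj.2 k
    rw [Nat.div_lt_iff_lt_mul hA.pos]
    nlinarith
  have hcard : bad.card ≤ ∑ j ∈ Icc 1 m, j ^ k / A := by
    refine le_trans Finset.card_biUnion_le (Finset.sum_le_sum fun j hj => ?_)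
    refine le_trans Finset.card_biUnion_le ?_
    calc ∑ y ∈ Icc 1 (j ^ k / A), ((Ioo A (2 * A)).filter (fun b => b * y ≡ j ^ k [MOD A])).card
        ≤ ∑ y ∈ Icc 1 (j ^ k / A), 1 := by
          refine Finset.sum_le_sum fun y hy => card_le_one hA _ ?_
          rw [Finset.mem_Icc] at hy
          intro hdvd
          have := Nat.le_of_dvd (by omega) hdvd
          have := hsmall j hj
          omega
      _ = j ^ k / A := by simp
  have hsum : (∑ j ∈ Icc 1 m, j ^ k / A) * A ≤ 2 * Q := by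
    rw [Finset.sum_mul]
    calc ∑ j ∈ Icc 1 m, j ^ k / A * A ≤ ∑ j ∈ Icc 1 m, j ^ k :=
          Finset.sum_le_sum fun j _ => Nat.div_mul_le_self _ _
      _ ≤ 2 * Q := sum_pow_le m k (by omega) hm1
  have hlt : bad.card < (Ioo A (2 * A)).card := by
    rw [Nat.card_Ioo]
    have hA3 : 3 ≤ A := by nlinarith
    have h1 : bad.card * A ≤ 2 * Q := le_trans (Nat.mul_le_mul_right A hcard) hsum
    have h2 : 4 * (bad.card * A) < A ^ 2 := by omega
    have h3 : 4 * bad.card < A := by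
      have : (4 * bad.card) * A < A * A := by nlinarith
      exact Nat.lt_of_mul_lt_mul_right this
    omega
  obtain ⟨b, hb, hbb⟩ := Finset.exists_mem_notMem_of_card_lt_card hlt
  rw [Finset.mem_Ioo] at hb
  -- the pair `(A, b)` represents no `k`-th power of a prime
  have hnot : ¬ Represents k A b := by
    rintro ⟨p, x, y, hp, hle, heq⟩
    have hpow : p ^ k < 2 ^ 7 * Q := by
      have : A * b ≤ A * (2 * A) := Nat.mul_le_mul_left A hb.2.le
      nlinarith
    have hpm : p ≤ m := by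
      by_contra h
      have h1 : (m + 1) ^ k ≤ p ^ k := Nat.pow_le_pow_left (by omega) k
      have h2 := pow_succ_ge m k 7 hm1 hmk
      omega
    have hAp : ¬ A ∣ p ^ k := by
      intro h
      have := Nat.le_of_dvd hp.pos (hA.dvd_of_dvd_pow h)
      omega
    have hy : 1 ≤ y := by
      by_contra h
      have hy0 : y = 0 := by omega
      rw [hy0] at heq
      exact hAp ⟨x, by simpa using heq⟩
    have hyle : y ≤ p ^ k / A := by
      rw [Nat.le_div_iff_mul_le hA.pos]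
      calc y * A ≤ y * b := Nat.mul_le_mul_left y hb.1.le
        _ = b * y := mul_comm _ _
        _ ≤ p ^ k := by rw [heq]; exact Nat.le_add_left _ _
    apply hbb
    rw [hbad, Finset.mem_biUnion]
    refine ⟨p, Finset.mem_Icc.2 ⟨hp.pos, hpm⟩, ?_⟩
    rw [Finset.mem_biUnion]
    refine ⟨y, Finset.mem_Icc.2 ⟨hy, hyle⟩, ?_⟩
    rw [Finset.mem_filter, Finset.mem_Ioo]
    refine ⟨hb, ?_⟩
    rw [heq]
    show b * y % A = (A * x + b * y) % A
    rw [Nat.mul_add_mod]
  have hcop : A.Coprime b := by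
    rw [Nat.Prime.coprime_iff_not_dvd hA]
    rintro ⟨c, hc⟩
    have h1 : 1 < c := by
      by_contra h
      have : c ≤ 1 := by omega
      have : A * c ≤ A * 1 := Nat.mul_le_mul_left A this
      omega
    have : A * 2 ≤ A * c := Nat.mul_le_mul_left A h1
    omega
  have hAN : A ≤ N := by
    by_contra h
    exact hnot (hN.2 A b (by omega) hb.1 hcop)
  calc 8 * Q < A ^ 2 := hA1
    _ ≤ N ^ 2 := Nat.pow_le_pow_left hAN 2

/-- the least such `N` grows faster than every exponential function; in particular its consecutive ratios are unbounded -/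
theorem ratio (g : ℕ → ℕ) (hg : ∀ k, 1 ≤ k → IsLeast {N | Thr k N} (g k)) (C K : ℕ) :
    ∃ k, K ≤ k ∧ C * g k < g (k + 1) := by
  by_contra hcon
  push Not at hcon
  set K₀ := K + 1 with hK₀
  have hb : ∀ j, g (K₀ + j) ≤ C ^ j * g K₀ := by
    intro j
    induction j with
    | zero => simp
    | succ j ih =>
      calc g (K₀ + (j + 1)) = g (K₀ + j + 1) := rfl
        _ ≤ C * g (K₀ + j) := hcon _ (by omega)
        _ ≤ C * (C ^ j * g K₀) := Nat.mul_le_mul_left C ih
        _ = C ^ (j + 1) * g K₀ := by ring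
  set G := g K₀ with hG
  set M := 2 * (C + 1) ^ 2 + G + K₀ with hM
  have hM1 : 1 ≤ M := by omega
  set k := 7 * M with hk
  have hkK : K₀ ≤ k := by omega
  obtain ⟨j, hj⟩ := Nat.exists_eq_add_of_le hkK
  have h1 : g k ≤ C ^ j * G := by rw [hj]; exact hb j
  have h2 : g k ≤ (C + 1) ^ k * G := by
    refine h1.trans (Nat.mul_le_mul_right G ?_)
    calc C ^ j ≤ (C + 1) ^ j := Nat.pow_le_pow_left (Nat.le_succ C) j
      _ ≤ (C + 1) ^ k := Nat.pow_le_pow_right (Nat.succ_pos C) (by omega)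
  have h3 := main k (g k) (by omega) (hg k (by omega)).1
  have h4 : k / 7 = M := by omega
  rw [h4] at h3
  have h5 : 2 ^ k * (C + 1) ^ (2 * k) ≤ M ^ k := by
    calc 2 ^ k * (C + 1) ^ (2 * k) = (2 * (C + 1) ^ 2) ^ k := by rw [mul_pow, ← pow_mul]
      _ ≤ M ^ k := Nat.pow_le_pow_left (by omega) k
  have h6 : G ^ 2 ≤ 2 ^ k := by
    calc G ^ 2 ≤ (2 ^ G) ^ 2 := Nat.pow_le_pow_left Nat.lt_two_pow_self.le 2
      _ = 2 ^ (G * 2) := by rw [← pow_mul]
      _ ≤ 2 ^ k := Nat.pow_le_pow_right (by norm_num) (by omega)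
  have h7 : g k ^ 2 ≤ M ^ k := by
    calc g k ^ 2 ≤ ((C + 1) ^ k * G) ^ 2 := Nat.pow_le_pow_left h2 2
      _ = G ^ 2 * (C + 1) ^ (2 * k) := by rw [mul_pow, ← pow_mul, mul_comm k 2, mul_comm]
      _ ≤ 2 ^ k * (C + 1) ^ (2 * k) := Nat.mul_le_mul_right _ h6
      _ ≤ M ^ k := h5
  omega

end Pool.Agent.H38.FT
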